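import Pool.Agent.Q299.EB.FUR1
import Pool.Agent.Q239.EB.FUR2
import Pool.Agent.Q239.EB.APT
import Pool.Agent.Q270.EB.TT

/-!
Project EB (helper270): joint Furstenberg systems with one tame coordinate, final form.
-/

set_option autoImplicit false

namespace Pool.Agent.Q270.EB

open MeasureTheory Finset Filter Pool.Agent.Q270.EA
open Pool.Agent.W208.TL (nit Tame)

/-- `f(n) = χ(n) n ^ {i t} u(n)` with a Dirichlet character `χ`, a real number `t` and a multiplicative
function `u` in the unit disc, which is tame (for all fixed `K` the sum of `(1 - Re u(p)) / p` over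
`X ^ (1/K) < p ≤ X` tends to `0`) and for which the sum of `(1 - Re u(p)) / p` over all primes diverges -/
def TameAp (f : ℕ → ℂ) : Prop := ∃ (q : ℕ) (χ : DirichletCharacter ℂ q) (t : ℝ) (u : ℕ → ℂ),
  1 ≤ q ∧ BM u ∧ Tame u ∧
  (¬ Summable fun p : ℕ => if p.Prime then (1 - (u p).re) / (p : ℝ) else 0) ∧
  ∀ n, 1 ≤ n → f n = χ (n : ZMod q) * nit t n * u n

lemma nit_one' (t : ℝ) : nit t 1 = 1 := by
  unfold nit
  simp

lemma nit_norm' (t : ℝ) (n : ℕ) : ‖nit t n‖ = 1 := by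
  unfold nit
  rw [mul_comm]
  exact Complex.norm_exp_ofReal_mul_I _

lemma nit_mul' (t : ℝ) {m n : ℕ} (hm : 1 ≤ m) (hn : 1 ≤ n) : nit t (m * n) = nit t m * nit t n := by
  unfold nit
  rw [← Complex.exp_add]
  congr 1
  have h1 : (m : ℝ) ≠ 0 := by positivity
  have h2 : (n : ℝ) ≠ 0 := by positivity
  rw [Nat.cast_mul, Real.log_mul h1 h2]
  push_cast
  ring

lemma TameAp.bm {f : ℕ → ℂ} (h : TameAp f) (h0 : ‖f 0‖ ≤ 1) : BM f := by
  obtain ⟨q, χ, t, u, hq, hu, hut, hns, hf⟩ := h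
  have h1 : f 1 = 1 := by
    rw [hf 1 le_rfl, nit_one', hu.2.1]
    simp
  refine ⟨fun n => ?_, h1, fun m n hmn => ?_⟩
  · rcases Nat.eq_zero_or_pos n with rfl | hn
    · exact h0
    · rw [hf n hn, norm_mul, norm_mul, nit_norm', mul_one]
      exact mul_le_one₀ (DirichletCharacter.norm_le_one χ _) (norm_nonneg _) (hu.1 n)
  · rcases Nat.eq_zero_or_pos m with rfl | hm
    · rw [Nat.coprime_zero_left] at hmn
      subst hmn
      rw [h1, mul_one, mul_one]
    rcases Nat.eq_zero_or_pos n with rfl | hn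
    · rw [Nat.coprime_zero_right] at hmn
      subst hmn
      rw [h1, one_mul, one_mul]
    rw [hf m hm, hf n hn, hf (m * n) (Nat.mul_pos hm hn), nit_mul' t hm hn, hu.2.2 m n hmn]
    push_cast
    rw [map_mul]
    ring

lemma TameAp.tw {f : ℕ → ℂ} (h : TameAp f) (h0 : ‖f 0‖ ≤ 1) : TW f := by
  refine ⟨h.bm h0, ?_, ?_⟩
  · obtain ⟨q, χ, t, u, hq, hu, hut, hns, hf⟩ := h
    exact Pool.Agent.Q239.EB.t_APT q χ t u f hq hu hut hns hf
  · obtain ⟨q, χ, t, u, hq, hu, hut, hns, hf⟩ := h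
    exact ⟨q, χ, t, u, hq, hu, hut, hf⟩

/-- the companions: `g(n) B(Ω(n))`, `g` multiplicative in the unit disc, `B` any function bounded by one -/
def Comp (f : ℕ → ℂ) : Prop := ∃ (g B : ℕ → ℂ), BM g ∧ (∀ l, ‖B l‖ ≤ 1) ∧ ∀ n : ℕ, 1 ≤ n →
  f n = g n * B (ArithmeticFunction.cardFactors n)

theorem fur_zero (r : ℕ) (F : SX r) (μ : Measure (SX r)) (hμ : IsFS F μ)
    (h0 : TameAp (fun n : ℕ => ((F (n : ℤ) 0 : Disc) : ℂ)))
    (hj : ∀ j : Fin r, Comp (fun n : ℕ => ((F (n : ℤ) j.succ : Disc) : ℂ))) :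
    ∀ A : Set (SX r), MeasurableSet[others r] A → ∫ x in A, ((x 0 0 : Disc) : ℂ) ∂μ = 0 := by
  have hd : ‖((F ((0 : ℕ) : ℤ) 0 : Disc) : ℂ)‖ ≤ 1 := by
    have := (F ((0 : ℕ) : ℤ) 0).2
    rwa [mem_closedBall_zero_iff] at this
  exact Pool.Agent.Q299.EB.t_FUR1 r μ hμ.1
    (Pool.Agent.Q239.EB.t_FUR2 t_TT r F μ hμ (h0.tw hd) hj)

/-! ### powers of the tame coordinate -/

/-- the `i`-th power in the disc -/
noncomputable def dpow (i : ℕ) (z : Disc) : Disc := ⟨(z : ℂ) ^ i, by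
  rw [mem_closedBall_zero_iff, norm_pow]
  have := z.2
  rw [mem_closedBall_zero_iff] at this
  exact pow_le_one₀ (norm_nonneg _) this⟩

/-- the system with the additional coordinate `x 0 ^ i` -/
noncomputable def pws (r i : ℕ) (x : SX r) : SX (r + 1) := fun k => Fin.cons (dpow i (x k 0)) (x k)

/-- forget the first coordinate -/
def fgt (r : ℕ) (y : SX (r + 1)) : SX r := fun k j => y k j.succ

lemma dpow_cont (i : ℕ) : Continuous (dpow i) := by
  unfold dpow
  exact Continuous.subtype_mk (continuous_subtype_val.pow i) _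

lemma pws_cont (r i : ℕ) : Continuous (pws r i) := by
  unfold pws
  refine continuous_pi fun k => continuous_pi fun j => ?_
  refine Fin.cases ?_ (fun j => ?_) j
  · simp only [Fin.cons_zero]
    exact (dpow_cont i).comp ((continuous_apply (0 : Fin (r + 1))).comp (continuous_apply k))
  · simp only [Fin.cons_succ]
    exact (continuous_apply j).comp (continuous_apply k)

lemma pws_meas (r i : ℕ) : Measurable (pws r i) := by
  unfold pws
  refine measurable_pi_lambda _ fun k => measurable_pi_lambda _ fun j => ?_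
  refine Fin.cases ?_ (fun j => ?_) j
  · simp only [Fin.cons_zero]
    exact (dpow_cont i).measurable.comp ((measurable_pi_apply (0 : Fin (r + 1))).comp (measurable_pi_apply k))
  · simp only [Fin.cons_succ]
    exact (measurable_pi_apply j).comp (measurable_pi_apply k)

lemma fgt_pws (r i : ℕ) (x : SX r) : fgt r (pws r i x) = x := by
  unfold fgt pws
  funext k j
  simp

lemma shf_pws (r i : ℕ) (n : ℤ) (x : SX r) : shf n (pws r i x) = pws r i (shf n x) := rfl

lemma fgt_others (r : ℕ) : Measurable[others (r + 1), others r] (fgt r) := by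
  rw [@measurable_iff_comap_le _ _ (others (r + 1)) (others r)]
  unfold others
  rw [MeasurableSpace.comap_iSup]
  refine iSup_mono fun k => ?_
  rw [MeasurableSpace.comap_comp]
  have h1 : ((fun x : SX r => x k) ∘ fgt r) =
      (fun z : Fin (r + 2) → Disc => fun j : Fin (r + 1) => z j.succ) ∘ (fun y : SX (r + 1) => y k) := rfl
  rw [h1, ← MeasurableSpace.comap_comp]
  refine MeasurableSpace.comap_mono ?_
  exact (measurable_pi_lambda _ fun j => measurable_pi_apply j.succ).comap_le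

lemma others_le (r : ℕ) : others r ≤ (inferInstance : MeasurableSpace (SX r)) := by
  unfold others
  exact iSup_le fun k => (measurable_pi_apply (k : ℤ)).comap_le

lemma IsFS.pws {r : ℕ} {F : SX r} {μ : Measure (SX r)} (hμ : IsFS F μ) (i : ℕ) :
    IsFS (pws r i F) (μ.map (pws r i)) := by
  obtain ⟨hp, N, hN, h⟩ := hμ
  refine ⟨Measure.isProbabilityMeasure_map (pws_meas r i).aemeasurable, N, hN, fun φ hφ => ?_⟩
  have h1 := h (φ ∘ Pool.Agent.Q270.EB.pws r i) (hφ.comp (pws_cont r i))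
  rw [integral_map (pws_meas r i).aemeasurable hφ.measurable.aestronglyMeasurable]
  exact h1

theorem fur_pow (r : ℕ) (F : SX r) (μ : Measure (SX r)) (hμ : IsFS F μ) (i : ℕ)
    (h0 : TameAp (fun n : ℕ => ((F (n : ℤ) 0 : Disc) : ℂ) ^ i))
    (hc : Comp (fun n : ℕ => ((F (n : ℤ) 0 : Disc) : ℂ)))
    (hj : ∀ j : Fin r, Comp (fun n : ℕ => ((F (n : ℤ) j.succ : Disc) : ℂ))) :
    ∀ A : Set (SX r), MeasurableSet[others r] A → ∫ x in A, ((x 0 0 : Disc) : ℂ) ^ i ∂μ = 0 := by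
  intro A hA
  have hA' : MeasurableSet[others (r + 1)] (fgt r ⁻¹' A) :=
    @fgt_others r A hA
  have h1 := fur_zero (r + 1) (pws r i F) (μ.map (pws r i)) (hμ.pws i) h0 (fun j => ?_) _ hA'
  · have hm : MeasurableSet (fgt r ⁻¹' A) := others_le (r + 1) _ hA'
    rw [setIntegral_map hm ?_ (pws_meas r i).aemeasurable] at h1
    · have h2 : pws r i ⁻¹' (fgt r ⁻¹' A) = A := by
        ext x
        simp [fgt_pws]
      rw [h2] at h1
      exact h1
    · exact (Pool.Agent.Q299.EB.v0_cont (r + 1)).measurable.aestronglyMeasurable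
  · refine Fin.cases ?_ (fun j => ?_) j
    · exact hc
    · exact hj j

/-- the values of the first coordinate -/
lemma fs_root {r : ℕ} {F : SX r} {μ : Measure (SX r)} (hμ : IsFS F μ) (q : ℕ)
    (hF : ∀ n : ℕ, 1 ≤ n → ((F (n : ℤ) 0 : Disc) : ℂ) ^ q = 1) :
    ∀ᵐ x ∂μ, ((x 0 0 : Disc) : ℂ) ^ q = 1 := by
  obtain ⟨hp, N, hN, h⟩ := hμ
  have hc : Continuous (fun x : SX r => ‖((x 0 0 : Disc) : ℂ) ^ q - 1‖) :=
    (((Pool.Agent.Q299.EB.v0_cont r).pow q).sub continuous_const).norm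
  have h1 := h _ hc
  have h2 : ∀ j, (1 / Real.log (N j : ℝ)) * ∑ n ∈ Icc 1 (N j), (1 / (n : ℝ)) *
      ‖((shf (n : ℤ) F 0 0 : Disc) : ℂ) ^ q - 1‖ = 0 := by
    intro j
    rw [sum_eq_zero, mul_zero]
    intro n hn
    have h3 : shf (n : ℤ) F 0 0 = F (n : ℤ) 0 := by
      unfold shf
      rw [zero_add]
    rw [h3, hF n (mem_Icc.1 hn).1, sub_self, norm_zero, mul_zero]
  simp_rw [h2] at h1
  have h4 : ∫ x, ‖((x 0 0 : Disc) : ℂ) ^ q - 1‖ ∂μ = 0 :=
    tendsto_nhds_unique h1 tendsto_const_nhds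
  have hint : Integrable (fun x : SX r => ‖((x 0 0 : Disc) : ℂ) ^ q - 1‖) μ := by
    refine Integrable.of_bound hc.measurable.aestronglyMeasurable 2 (ae_of_all _ fun x => ?_)
    rw [norm_norm]
    refine (norm_sub_le _ _).trans ?_
    rw [norm_one, norm_pow]
    have h5 := pow_le_one₀ (norm_nonneg _) (Pool.Agent.Q299.EB.v0_norm x) (n := q)
    have h6 : ‖((x 0 0 : Disc) : ℂ)‖ ^ q ≤ 1 := h5
    linarith
  have h5 := (integral_eq_zero_iff_of_nonneg (fun x => norm_nonneg _) hint).1 h4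
  filter_upwards [h5] with x hx
  simp only [Pi.zero_apply, norm_eq_zero] at hx
  exact sub_eq_zero.1 hx

theorem fur_unif (r : ℕ) (F : SX r) (μ : Measure (SX r)) (hμ : IsFS F μ) (q : ℕ) (hq : 1 ≤ q)
    (hF : ∀ n : ℕ, 1 ≤ n → ((F (n : ℤ) 0 : Disc) : ℂ) ^ q = 1)
    (h0 : ∀ i, 1 ≤ i → i < q → TameAp (fun n : ℕ => ((F (n : ℤ) 0 : Disc) : ℂ) ^ i))
    (hc : Comp (fun n : ℕ => ((F (n : ℤ) 0 : Disc) : ℂ)))
    (hj : ∀ j : Fin r, Comp (fun n : ℕ => ((F (n : ℤ) j.succ : Disc) : ℂ))) :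
    ∀ A : Set (SX r), MeasurableSet[others r] A → ∀ ζ : ℂ, ζ ^ q = 1 →
      μ.real (A ∩ {x | ((x 0 0 : Disc) : ℂ) = ζ}) = μ.real A / q := by
  intro A hA ζ hζ
  have hp := hμ.1
  have hAm : MeasurableSet A := others_le r _ hA
  have hζ0 : ζ ≠ 0 := by
    rintro rfl
    rw [zero_pow (by omega)] at hζ
    exact zero_ne_one hζ
  have hq0 : (q : ℂ) ≠ 0 := by exact_mod_cast (by omega : q ≠ 0)
  have hV := Pool.Agent.Q299.EB.v0_cont r
  have hroot := fs_root hμ q hF
  -- the indicator is the mean of the powers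
  have hind : ∀ᵐ x ∂μ, (if ((x 0 0 : Disc) : ℂ) = ζ then (1 : ℂ) else 0) =
      (1 / (q : ℂ)) * ∑ i ∈ range q, ζ⁻¹ ^ i * ((x 0 0 : Disc) : ℂ) ^ i := by
    filter_upwards [hroot] with x hx
    obtain ⟨v, hv⟩ : ∃ v : ℂ, v = ((x 0 0 : Disc) : ℂ) := ⟨_, rfl⟩
    rw [← hv] at hx ⊢
    simp_rw [← mul_pow]
    split_ifs with h
    · rw [h, inv_mul_cancel₀ hζ0]
      simp [hq0]
    · have h1 : (ζ⁻¹ * v) ^ q = 1 := by rw [mul_pow, hx, inv_pow, hζ, inv_one, one_mul]
      have h2 : ζ⁻¹ * v ≠ 1 := fun h3 => h (by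
        field_simp at h3
        exact h3)
      rw [geom_sum_eq h2, h1, sub_self, zero_div, mul_zero]
  have hint : ∀ i, Integrable (fun x : SX r => ζ⁻¹ ^ i * ((x 0 0 : Disc) : ℂ) ^ i) (μ.restrict A) := by
    intro i
    refine Integrable.const_mul ?_ _
    refine Integrable.of_bound (hV.pow i).measurable.aestronglyMeasurable 1 (ae_of_all _ fun x => ?_)
    show ‖((x 0 0 : Disc) : ℂ) ^ i‖ ≤ 1
    rw [norm_pow]
    exact pow_le_one₀ (norm_nonneg _) (Pool.Agent.Q299.EB.v0_norm x)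
  have hmeas : MeasurableSet {x : SX r | ((x 0 0 : Disc) : ℂ) = ζ} :=
    measurableSet_eq_fun hV.measurable measurable_const
  have h1 : ∫ x in A, (if ((x 0 0 : Disc) : ℂ) = ζ then (1 : ℂ) else 0) ∂μ =
      (1 / (q : ℂ)) * (μ.real A : ℂ) := by
    rw [integral_congr_ae (ae_restrict_of_ae hind), integral_const_mul, integral_finset_sum _ fun i _ => hint i]
    congr 1
    rw [sum_eq_single 0]
    · simp [Measure.real]
    · intro i hi hi0
      rw [integral_const_mul, fur_pow r F μ hμ i (h0 i (by omega) (mem_range.1 hi)) hc hj A hA, mul_zero]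
    · intro h
      exact absurd (mem_range.2 (by omega)) h
  have h2 : ∫ x in A, (if ((x 0 0 : Disc) : ℂ) = ζ then (1 : ℂ) else 0) ∂μ =
      (μ.real (A ∩ {x | ((x 0 0 : Disc) : ℂ) = ζ}) : ℂ) := by
    have h3 : (fun x : SX r => if ((x 0 0 : Disc) : ℂ) = ζ then (1 : ℂ) else 0) =
        Set.indicator {x | ((x 0 0 : Disc) : ℂ) = ζ} (fun _ => 1) := by
      funext x
      simp [Set.indicator_apply]
    rw [h3, integral_indicator hmeas, setIntegral_const]
    simp only [Measure.real, Measure.restrict_apply hmeas, MeasurableSet.univ, Complex.real_smul, mul_one]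
    rw [Set.inter_comm]
  rw [h2] at h1
  have h3 : (μ.real (A ∩ {x | ((x 0 0 : Disc) : ℂ) = ζ}) : ℂ) = ((μ.real A / q : ℝ) : ℂ) := by
    rw [h1]
    push_cast
    ring
  exact_mod_cast h3

end Pool.Agent.Q270.EB
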